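import Pool.Agent.Run7.h479.XX.Centre

/-!
# The condition `L(π, R, 1/2) ≠ 0` by the traces of the Langlands parameters

In the notation of the problem let `F` be a number field, `S` a finite set of primes of `F`, and for `v ∉ S` let
`R_k(v)` be the trace of `R(φ_v(Frob_v^k))` for the unramified parameter `φ_v`, i.e. the sum of the `k`-th powers of
its eigenvalues `a_{v,i}`, of absolute value `1` for the tempered `π`. For `γ > π/2` and `T > 0` put

`S(T) = ∑_{v ∉ S} ∑_{k ≥ 1} R_k(v) / (k N(v)^{k/2}) · exp(iγ k log N(v) / T) / Γ(1 + k log N(v) / T)`.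

The series converges absolutely, although `s = 1/2` is outside the region of convergence of the Euler product.
Let `L(s)` be the L-function of `π` and `R` without the factors in `S` (these have neither zeros nor poles at
`1/2` for tempered parameters), analytic at `1/2`. Without any hypothesis on zeros:

* `exp(S(T)) → L(1/2)` for `T → ∞`, also if `L(1/2) = 0`;
* `Re S(T) / log T → -m`, where `m` is the order of the zero at `1/2`;
* `L(1/2) ≠ 0` if and only if `S(T)` converges, if and only if `Re S(T_k) ≥ B` for one number `B` and one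
  sequence `T_k → ∞`; otherwise `Re S(T) → -∞`.

So the condition on the central value in (ii) and (iii) of Q1 is that the real parts of these sums over the
traces are bounded below along one sequence. This holds in the orthogonal, symplectic, hermitian and
skew-hermitian case, with the traces of the respective `R`, also for `E = F × F`.

The law for Euler products with complex coefficients at an arbitrary real point is due to helper453 (library
`Pool.Agent.Run7.h453.CX`, used in `MP_46b841_nt.ChebotarevAtZero`).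
-/

set_option autoImplicit false

open Filter Topology Set NumberField IsDedekindDomain Run7.h479.XX

namespace Pool.Agent.Results.MP_86aa84_nt.CentralValueByTraces

variable {F : Type} [Field F] [NumberField F] {N : ℕ}

open Classical in
/-- `L` is the L-function of `π` and `R` without the factors in `S`: `a_{v,i}` are the eigenvalues of
`R(φ_v(Frob_v))`, of absolute value `1`; `L` is the Euler product for `Re s > 1`, meromorphic at the points of
the real interval `[1/2, 1]` and analytic at `1/2`. -/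
structure IsLFunction (S : Set (HeightOneSpectrum (𝓞 F))) (a : HeightOneSpectrum (𝓞 F) → Fin N → ℂ)
    (L : ℂ → ℂ) : Prop where
  tempered : ∀ v ∉ S, ∀ i, ‖a v i‖ = 1
  euler : ∀ s : ℂ, 1 < s.re → L s = ∏' v : HeightOneSpectrum (𝓞 F),
    if v ∈ S then 1 else ∏ i, (1 - a v i * (nm v : ℂ) ^ (-s))⁻¹
  mero : ∀ x : ℝ, 1 / 2 ≤ x → x ≤ 1 → MeromorphicAt L (x : ℂ)
  analytic : AnalyticAt ℂ L ((1 / 2 : ℝ) : ℂ)

open Classical in
/-- The term of `S(T)` for `v = x.1` and `k = x.2`. -/
noncomputable def term (S : Set (HeightOneSpectrum (𝓞 F))) (a : HeightOneSpectrum (𝓞 F) → Fin N → ℂ)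
    (γ T : ℝ) (x : HeightOneSpectrum (𝓞 F) × ℕ+) : ℂ :=
  if x.1 ∈ S then 0 else (∑ i, a x.1 i ^ (x.2 : ℕ)) /
    (((x.2 : ℕ) : ℂ) * ((nm x.1 ^ (((x.2 : ℕ) : ℝ) / 2) : ℝ) : ℂ)) *
      weight γ T ((x.2 : ℕ) * Real.log (nm x.1))

/-- `S(T)` -/
noncomputable def sum (S : Set (HeightOneSpectrum (𝓞 F))) (a : HeightOneSpectrum (𝓞 F) → Fin N → ℂ)
    (γ T : ℝ) : ℂ := ∑' x, term S a γ T x

section proof

variable {S : Set (HeightOneSpectrum (𝓞 F))} {a : HeightOneSpectrum (𝓞 F) → Fin N → ℂ} {L : ℂ → ℂ}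

open Classical in
/-- the parameters -/
noncomputable def par (S : Set (HeightOneSpectrum (𝓞 F))) (a : HeightOneSpectrum (𝓞 F) → Fin N → ℂ)
    (v : HeightOneSpectrum (𝓞 F)) (i : Fin N) : ℂ := if v ∈ S then 0 else a v i

theorem term_eq (γ T : ℝ) (x : HeightOneSpectrum (𝓞 F) × ℕ+) :
    term S a γ T x = Centre.term (par S a) (1 / 2) γ T x := by
  unfold term Centre.term par
  by_cases h : x.1 ∈ S
  · simp [h]
  · simp only [h, if_false]
    rw [show ((x.2 : ℕ) : ℝ) * (1 / 2) = ((x.2 : ℕ) : ℝ) / 2 by ring]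

theorem sum_eq (γ T : ℝ) : sum S a γ T = Centre.sum (par S a) (1 / 2) γ T :=
  tsum_congr fun x => term_eq γ T x

theorem IsLFunction.isL (h : IsLFunction S a L) : Centre.IsL 0 (1 / 2) (par S a) L where
  norm := fun v k => by
    rw [Real.rpow_zero]
    unfold par
    split_ifs with hv
    · rw [norm_zero]
      norm_num
    · rw [h.tempered v hv]
  euler := fun s hs => by
    rw [h.euler s (by linarith)]
    refine tprod_congr fun v => ?_
    by_cases hv : v ∈ S
    · simp [par, hv]
    · simp [par, hv]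
  mero := fun x h1 h2 => h.mero x h1 (by linarith)
  le := by norm_num

end proof

/-- **Theorem.** Let `L` be the L-function of `π` and `R` outside `S`, and `γ > π/2`.

* The series `S(T)` converges absolutely for `T > 0`, and `exp(S(T)) → L(1/2)` for `T → ∞`.
* For the order `m ≥ 0` of `L` at `1/2`: `Re S(T) / log T → -m`.
* `L(1/2) ≠ 0` iff `S(T)` converges; iff `Re S(T)` is bounded below along one sequence `T_k → ∞`.
* `L(1/2) = 0` iff `Re S(T) → -∞`. -/
theorem result (S : Set (HeightOneSpectrum (𝓞 F))) (a : HeightOneSpectrum (𝓞 F) → Fin N → ℂ)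
    (L : ℂ → ℂ) (h : IsLFunction S a L) (γ : ℝ) (hγ : Real.pi / 2 < γ) :
    (∀ T : ℝ, 0 < T → Summable fun x => ‖term S a γ T x‖) ∧
    Tendsto (fun T : ℝ => Complex.exp (sum S a γ T)) atTop (𝓝 (L ((1 / 2 : ℝ) : ℂ))) ∧
    (∃ m : ℕ, meromorphicOrderAt L ((1 / 2 : ℝ) : ℂ) = (m : ℤ) ∧
      Tendsto (fun T : ℝ => (sum S a γ T).re / Real.log T) atTop (𝓝 (-(m : ℝ)))) ∧
    (L ((1 / 2 : ℝ) : ℂ) ≠ 0 ↔ ∃ ρ : ℂ, Tendsto (fun T : ℝ => sum S a γ T) atTop (𝓝 ρ)) ∧
    (L ((1 / 2 : ℝ) : ℂ) ≠ 0 ↔ ∃ (B : ℝ) (T : ℕ → ℝ), Tendsto T atTop atTop ∧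
      ∀ k, B ≤ (sum S a γ (T k)).re) ∧
    (L ((1 / 2 : ℝ) : ℂ) = 0 ↔ Tendsto (fun T : ℝ => (sum S a γ T).re) atTop atBot) := by
  simp_rw [sum_eq]
  exact ⟨fun T hT => (h.isL.summable γ hT).congr fun x => by rw [term_eq],
    h.isL.value h.analytic.continuousAt hγ, h.isL.nonvanishing h.analytic hγ⟩

end Pool.Agent.Results.MP_86aa84_nt.CentralValueByTraces
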